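import Pool.Agent.Helper36.Pin.Defs3

/-!
Module QF: dimensions of the explicit flats.
-/

namespace Pool.Agent.Helper36.Pin

open Finset Module

section CoordinateSubspace

theorem single_eq_pi {m : Type} [DecidableEq m] (x : m) :
    (single x : m → ℚ) = Pi.single x 1 := by
  funext y
  simp only [single, Pi.single_apply]

theorem finrank_span_single {m : Type} [Fintype m] [DecidableEq m] (p : m → Prop)
    [DecidablePred p] :
    finrank ℚ (Submodule.span ℚ {x : m → ℚ | ∃ c, p c ∧ x = single c}) =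
      ∑ c : m, if p c then 1 else 0 := by
  classical
  have hli : LinearIndependent ℚ (fun c : {c // p c} => (single c.1 : m → ℚ)) := by
    have h1 := (Pi.basisFun ℚ m).linearIndependent
    have h2 := h1.comp (fun c : {c // p c} => c.1) Subtype.val_injective
    have h3 : (fun c : {c // p c} => (single c.1 : m → ℚ)) =
        (Pi.basisFun ℚ m) ∘ (fun c : {c // p c} => c.1) := by
      funext c
      simp only [Function.comp_apply, Pi.basisFun_apply]
      exact single_eq_pi c.1
    rw [h3]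
    exact h2
  have hr : {x : m → ℚ | ∃ c, p c ∧ x = single c} =
      Set.range (fun c : {c // p c} => (single c.1 : m → ℚ)) := by
    ext x
    constructor
    · rintro ⟨c, hc, rfl⟩
      exact ⟨⟨c, hc⟩, rfl⟩
    · rintro ⟨c, rfl⟩
      exact ⟨c.1, c.2, rfl⟩
  rw [hr, finrank_span_eq_card hli, Fintype.card_subtype, Finset.card_filter]

end CoordinateSubspace

variable {V : Type} [Fintype V] [DecidableEq V]

/-- the shear which subtracts a multiple of the coordinate `(X, i, 0)` from `(X, i, 1)` -/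
noncomputable def shear (G : SimpleGraph V) (c : Blk G → ℚ) :
    (Coord G → ℚ) →ₗ[ℚ] (Coord G → ℚ) where
  toFun f := fun y => match y with
    | Sum.inr (Sum.inl (X, i, j)) =>
        f (Sum.inr (Sum.inl (X, i, j))) - (if j = 1 then c X * f (Sum.inr (Sum.inl (X, i, 0)))
          else 0)
    | Sum.inl g => f (Sum.inl g)
    | Sum.inr (Sum.inr z) => f (Sum.inr (Sum.inr z))
  map_add' f g := by
    funext y
    rcases y with y | ⟨X, i, j⟩ | z
    · rfl
    · simp only [Pi.add_apply]
      split_ifs <;> ring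
    · rfl
  map_smul' r f := by
    funext y
    rcases y with y | ⟨X, i, j⟩ | z
    · rfl
    · simp only [Pi.smul_apply, smul_eq_mul, RingHom.id_apply]
      split_ifs <;> ring
    · rfl

theorem shear_shear (G : SimpleGraph V) (c : Blk G → ℚ) (f : Coord G → ℚ) :
    shear G (fun X => - c X) (shear G c f) = f := by
  funext y
  rcases y with y | ⟨X, i, j⟩ | z
  · rfl
  · simp only [shear, LinearMap.coe_mk, AddHom.coe_mk]
    by_cases hj : j = 1
    · subst hj
      simp
    · simp [hj]
  · rfl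

/-- the shear as an equivalence -/
noncomputable def shearEquiv (G : SimpleGraph V) (c : Blk G → ℚ) :
    (Coord G → ℚ) ≃ₗ[ℚ] (Coord G → ℚ) :=
  { shear G c with
    invFun := shear G (fun X => - c X)
    left_inv := shear_shear G c
    right_inv := fun f => by
      have h1 := shear_shear G (fun X => - c X) f
      have h2 : shear G (fun X => - - c X) = shear G c := by simp only [neg_neg]
      rw [h2] at h1
      exact h1 }

theorem shearEquiv_apply (G : SimpleGraph V) (c : Blk G → ℚ) (f : Coord G → ℚ) :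
    shearEquiv G c f = shear G c f := rfl

theorem shear_single_inl (G : SimpleGraph V) (c : Blk G → ℚ) (g : Gen0 G) :
    shear G c (single (Sum.inl g)) = single (Sum.inl g) := by
  funext y
  rcases y with y | ⟨X, i, j⟩ | z
  · rfl
  · simp [shear, single]
  · rfl

theorem shear_gvec (G : SimpleGraph V) (c : Blk G → ℚ) (t : V → ℚ) (v : V) (X : Blk G)
    (i : Fin (Fintype.card V)) :
    shear G c (gvec G t v (Sum.inr (X, i))) =
      single (Sum.inr (Sum.inl (X, i, 0))) +
        (t v - c X) • single (Sum.inr (Sum.inl (X, i, 1))) := by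
  funext y
  rcases y with y | ⟨Y, k, j⟩ | z
  · simp [shear, gvec, single]
  · simp only [shear, gvec, single, LinearMap.coe_mk, AddHom.coe_mk, Pi.add_apply, Pi.smul_apply,
      smul_eq_mul, Sum.inr.injEq, Sum.inl.injEq, Prod.mk.injEq]
    fin_cases j
    · simp
    · by_cases hY : Y = X
      · subst hY
        by_cases hk : k = i
        · subst hk
          simp
        · simp [hk]
      · simp [hY]
  · simp [shear, gvec, single]

open Classical in
/-- the coordinates of the flat of `S` -/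
def InT (G : SimpleGraph V) (S : Finset V) : Coord G → Prop
  | Sum.inl g => ∃ v ∈ S, At0 G v g
  | Sum.inr (Sum.inl (X, i, j)) => (i : ℕ) + 2 < X.1.card ∧ (j : ℕ) + 1 ≤ (S ∩ X.1).card
  | Sum.inr (Sum.inr _) => False

theorem exists_base (G : SimpleGraph V) (t : V → ℚ) (S : Finset V) :
    ∃ c : Blk G → ℚ, ∀ X : Blk G, (S ∩ X.1).Nonempty → ∃ v ∈ S ∩ X.1, c X = t v := by
  classical
  refine ⟨fun X => if h : (S ∩ X.1).Nonempty then t h.choose else 0, fun X hX => ?_⟩
  exact ⟨hX.choose, hX.choose_spec, dif_pos hX⟩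

theorem map_span_eq (G : SimpleGraph V) (t : V → ℚ) (ht : Function.Injective t) (S : Finset V)
    (c : Blk G → ℚ) (hc : ∀ X : Blk G, (S ∩ X.1).Nonempty → ∃ v ∈ S ∩ X.1, c X = t v) :
    (Submodule.span ℚ {x : Coord G → ℚ | ∃ v ∈ S,
        (∃ g, At0 G v g ∧ x = single (Sum.inl g)) ∨
        (∃ X i, At G v (Sum.inr (X, i)) ∧ x = gvec G t v (Sum.inr (X, i)))}).map
        (shearEquiv G c : (Coord G → ℚ) →ₗ[ℚ] (Coord G → ℚ)) =
      Submodule.span ℚ {x : Coord G → ℚ | ∃ y, InT G S y ∧ x = single y} := by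
  rw [Submodule.map_span]
  apply le_antisymm
  · rw [Submodule.span_le]
    rintro _ ⟨x, ⟨v, hv, ⟨g, hg, rfl⟩ | ⟨X, i, hX, rfl⟩⟩, rfl⟩
    · apply Submodule.subset_span
      refine ⟨Sum.inl g, ⟨v, hv, hg⟩, ?_⟩
      exact shear_single_inl G c g
    · have hXv : v ∈ S ∩ X.1 := mem_inter.mpr ⟨hv, hX.1⟩
      obtain ⟨v₀, hv₀, hcv⟩ := hc X ⟨v, hXv⟩
      have e : (shearEquiv G c : (Coord G → ℚ) →ₗ[ℚ] (Coord G → ℚ))
          (gvec G t v (Sum.inr (X, i))) = single (Sum.inr (Sum.inl (X, i, 0))) +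
          (t v - c X) • single (Sum.inr (Sum.inl (X, i, 1))) := shear_gvec G c t v X i
      rw [e]
      refine Submodule.add_mem _ (Submodule.subset_span ⟨_, ?_, rfl⟩) ?_
      · exact ⟨hX.2, card_pos.mpr ⟨v, hXv⟩⟩
      · by_cases hvv : v = v₀
        · rw [hcv, hvv, sub_self, zero_smul]
          exact Submodule.zero_mem _
        · refine Submodule.smul_mem _ _ (Submodule.subset_span ⟨_, ?_, rfl⟩)
          refine ⟨hX.2, ?_⟩
          exact one_lt_card.mpr ⟨v, hXv, v₀, hv₀, hvv⟩
  · rw [Submodule.span_le]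
    rintro _ ⟨y, hy, rfl⟩
    rcases y with g | ⟨X, i, j⟩ | z
    · obtain ⟨v, hv, hg⟩ := hy
      apply Submodule.subset_span
      refine ⟨single (Sum.inl g), ⟨v, hv, Or.inl ⟨g, hg, rfl⟩⟩, ?_⟩
      exact shear_single_inl G c g
    · obtain ⟨hi, hj⟩ := hy
      have hne : (S ∩ X.1).Nonempty := card_pos.mp (by omega)
      obtain ⟨v₀, hv₀, hcv⟩ := hc X hne
      have h0 : (single (Sum.inr (Sum.inl (X, i, 0))) : Coord G → ℚ) ∈
          Submodule.span ℚ ((shearEquiv G c : (Coord G → ℚ) →ₗ[ℚ] (Coord G → ℚ)) ''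
            {x : Coord G → ℚ | ∃ v ∈ S,
        (∃ g, At0 G v g ∧ x = single (Sum.inl g)) ∨
        (∃ X i, At G v (Sum.inr (X, i)) ∧ x = gvec G t v (Sum.inr (X, i)))}) := by
        apply Submodule.subset_span
        refine ⟨gvec G t v₀ (Sum.inr (X, i)), ⟨v₀, (mem_inter.mp hv₀).1, Or.inr ⟨X, i,
          ⟨(mem_inter.mp hv₀).2, hi⟩, rfl⟩⟩, ?_⟩
        refine (shear_gvec G c t v₀ X i).trans ?_
        rw [hcv, sub_self, zero_smul, add_zero]
      fin_cases j
      · exact h0
      · have h1 : 1 < (S ∩ X.1).card := hj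
        obtain ⟨v, hv, hvv⟩ := exists_mem_ne h1 v₀
        have h2 : (single (Sum.inr (Sum.inl (X, i, 0))) +
            (t v - c X) • single (Sum.inr (Sum.inl (X, i, 1))) : Coord G → ℚ) ∈
          Submodule.span ℚ ((shearEquiv G c : (Coord G → ℚ) →ₗ[ℚ] (Coord G → ℚ)) ''
            {x : Coord G → ℚ | ∃ v ∈ S,
        (∃ g, At0 G v g ∧ x = single (Sum.inl g)) ∨
        (∃ X i, At G v (Sum.inr (X, i)) ∧ x = gvec G t v (Sum.inr (X, i)))}) := by
          apply Submodule.subset_span
          exact ⟨gvec G t v (Sum.inr (X, i)), ⟨v, (mem_inter.mp hv).1, Or.inr ⟨X, i,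
            ⟨(mem_inter.mp hv).2, hi⟩, rfl⟩⟩, shear_gvec G c t v X i⟩
        have h3 := Submodule.sub_mem _ h2 h0
        rw [add_sub_cancel_left] at h3
        have hne' : t v - c X ≠ 0 := by
          rw [hcv]
          exact sub_ne_zero.mpr fun h => hvv (ht h)
        have h4 := Submodule.smul_mem _ (t v - c X)⁻¹ h3
        rwa [smul_smul, inv_mul_cancel₀ hne', one_smul] at h4
    · exact hy.elim

theorem count_fin (N m s : ℕ) (hm : 2 ≤ m) (hmN : m ≤ N) :
    ((if 0 < s then 1 else 0) + ∑ i : Fin N, ∑ j : Fin 2,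
      if (i : ℕ) + 2 < m ∧ (j : ℕ) + 1 ≤ s then 1 else 0) = rho m s := by
  have h1 : ∀ i : Fin N, (∑ j : Fin 2, if (i : ℕ) + 2 < m ∧ (j : ℕ) + 1 ≤ s then 1 else 0) =
      (if (i : ℕ) + 2 < m then min s 2 else 0) := by
    intro i
    rw [Fin.sum_univ_two]
    by_cases hi : (i : ℕ) + 2 < m
    · simp only [hi, true_and, Fin.val_zero, Fin.val_one, if_true]
      rcases s with _ | _ | s
      · simp
      · simp
      · simp
    · simp [hi]
  simp_rw [h1]
  rw [Fin.sum_univ_eq_sum_range (fun i => if i + 2 < m then min s 2 else 0) N,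
    ← Finset.sum_filter, Finset.sum_const, smul_eq_mul]
  have h2 : (range N).filter (fun i => i + 2 < m) = range (m - 2) := by
    ext i
    simp only [mem_filter, mem_range]
    omega
  rw [h2, card_range]
  unfold rho
  rcases s with _ | _ | s
  · simp
  · simp
    omega
  · simp
    omega

theorem two_le_block {G : SimpleGraph V} (X : Blk G) : 2 ≤ X.1.card := by
  classical
  have h : ∀ Y, Y ∈ blocks G → 2 ≤ Y.card := by
    intro Y hY
    rw [blocks, mem_filter] at hY
    exact hY.2.1.1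
  exact h X.1 X.2

open Classical in
theorem count_InT (G : SimpleGraph V) (S : Finset V) :
    (∑ y : Coord G, if InT G S y then 1 else 0) =
      (coloops G ∩ inc G S).card + ∑ X ∈ blocks G, rho X.card (S ∩ X).card := by
  rw [Fintype.sum_sum_type, Fintype.sum_sum_type, Fintype.sum_sum_type]
  have e1 : (∑ x : Sym2 V, if InT G S (Sum.inl (Sum.inl x)) then 1 else 0) =
      (coloops G ∩ inc G S).card := by
    rw [← card_filter]
    refine congrArg Finset.card (Finset.ext fun e => ?_)
    rw [mem_filter, mem_inter]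
    simp only [mem_univ, true_and, InT, At0]
    constructor
    · rintro ⟨v, hv, he, hve⟩
      have h1 : e ∈ edges G := by
        have h2 := he
        rw [coloops, mem_filter] at h2
        exact h2.1
      exact ⟨he, mem_inc.mpr ⟨mem_edges.mp h1, v, hv, hve⟩⟩
    · rintro ⟨he, h⟩
      obtain ⟨_, v, hv, hve⟩ := mem_inc.mp h
      exact ⟨v, hv, he, hve⟩
  have e2 : (∑ X : Blk G, if InT G S (Sum.inl (Sum.inr X)) then 1 else 0) =
      ∑ X : Blk G, if 0 < (S ∩ X.1).card then 1 else 0 := by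
    refine sum_congr rfl fun X _ => ?_
    congr 1
    simp only [InT, At0, card_pos, eq_iff_iff]
    constructor
    · rintro ⟨v, hv, hvX⟩
      exact ⟨v, mem_inter.mpr ⟨hv, hvX⟩⟩
    · rintro ⟨v, hv⟩
      exact ⟨v, (mem_inter.mp hv).1, (mem_inter.mp hv).2⟩
  have e3 : (∑ x : Blk G × Fin (Fintype.card V) × Fin 2,
      if InT G S (Sum.inr (Sum.inl x)) then 1 else 0) =
      ∑ X : Blk G, ∑ i : Fin (Fintype.card V), ∑ j : Fin 2,
        if (i : ℕ) + 2 < X.1.card ∧ (j : ℕ) + 1 ≤ (S ∩ X.1).card then 1 else 0 := by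
    rw [Fintype.sum_prod_type]
    refine sum_congr rfl fun X _ => ?_
    rw [Fintype.sum_prod_type]
    refine sum_congr rfl fun i _ => sum_congr rfl fun j _ => ?_
    exact if_congr Iff.rfl rfl rfl
  have e4 : (∑ x : V × Fin 2, if InT G S (Sum.inr (Sum.inr x)) then 1 else 0) = 0 := by
    refine sum_eq_zero fun x _ => ?_
    exact if_neg fun h => h
  rw [e1, e2, e3, e4, add_zero, add_assoc, ← sum_add_distrib]
  congr 1
  rw [← Finset.sum_coe_sort (blocks G) (fun X => rho X.card (S ∩ X).card)]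
  refine sum_congr rfl fun X _ => ?_
  exact count_fin _ _ _ (two_le_block X) (card_le_univ _)

theorem finrank_flat (G : SimpleGraph V) (t : V → ℚ) (ht : Function.Injective t) (S : Finset V) :
    finrank ℚ (Submodule.span ℚ {x : Coord G → ℚ | ∃ v ∈ S,
        (∃ g, At0 G v g ∧ x = single (Sum.inl g)) ∨
        (∃ X i, At G v (Sum.inr (X, i)) ∧ x = gvec G t v (Sum.inr (X, i)))}) =
      (coloops G ∩ inc G S).card + ∑ X ∈ blocks G, rho X.card (S ∩ X).card := by
  classical
  obtain ⟨c, hc⟩ := exists_base G t S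
  have h1 := map_span_eq G t ht S c hc
  have h2 := LinearEquiv.finrank_map_eq (shearEquiv G c)
    (Submodule.span ℚ {x : Coord G → ℚ | ∃ v ∈ S,
        (∃ g, At0 G v g ∧ x = single (Sum.inl g)) ∨
        (∃ X i, At G v (Sum.inr (X, i)) ∧ x = gvec G t v (Sum.inr (X, i)))})
  rw [← h2, h1, finrank_span_single (InT G S)]
  exact count_InT G S

end Pool.Agent.Helper36.Pin
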