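import Mathlib

/-!
Module QG1: a hyperplane section of a family of subspaces.
-/

namespace Pool.Agent.Helper36.Pin

open Finset Module

section

variable {K W ι : Type} [Field K] [AddCommGroup W] [Module K W] [FiniteDimensional K W]

theorem finrank_le_inf_ker (A : Submodule K W) (h : W →ₗ[K] K) :
    finrank K A ≤ finrank K (A ⊓ LinearMap.ker h : Submodule K W) + 1 := by
  have h1 := Submodule.finrank_sup_add_finrank_inf_eq A (LinearMap.ker h)
  have h2 := LinearMap.finrank_range_add_finrank_ker h
  have h3 : finrank K (LinearMap.range h) ≤ 1 := by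
    have := Submodule.finrank_le (LinearMap.range h)
    rwa [finrank_self] at this
  have h4 := Submodule.finrank_le (A ⊔ LinearMap.ker h)
  omega

omit [FiniteDimensional K W] in
theorem sup_inf_ker_le (A : ι → Submodule K W) (h : W →ₗ[K] K) (C : Finset ι) :
    C.sup (fun i => A i ⊓ LinearMap.ker h) ≤ C.sup A :=
  Finset.sup_mono_fun fun _ _ => inf_le_left

theorem hyper_rank [DecidableEq ι] (A : ι → Submodule K W) (h : W →ₗ[K] K) (Z : Finset ι)
    (hdis : ∀ C D : Finset ι, C ∪ D ⊆ Z → Disjoint C D →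
      (∀ i ∈ C, ∀ j ∈ D, A i ⊓ A j ≤ LinearMap.ker h) → Disjoint (C.sup A) (D.sup A))
    (hZ : ∀ S ⊆ Z, S.Nonempty → 2 * S.card + 1 ≤ finrank K (S.sup A : Submodule K W)) :
    ∀ S ⊆ Z, 2 * S.card ≤
      finrank K (S.sup (fun i => A i ⊓ LinearMap.ker h) : Submodule K W) := by
  classical
  intro S
  induction hn : S.card using Nat.strong_induction_on generalizing S with
  | _ n ih =>
  intro hS
  rcases S.eq_empty_or_nonempty with rfl | hne
  · rw [card_empty] at hn; omega
  let F : Finset (Finset ι) := S.powerset.filter (fun C => C.Nonempty ∧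
    C.sup A ⊓ LinearMap.ker h ≤ C.sup (fun i => A i ⊓ LinearMap.ker h))
  have hF : F.Nonempty := by
    obtain ⟨s, hs⟩ := hne
    refine ⟨{s}, ?_⟩
    simp only [F, mem_filter, mem_powerset, singleton_subset_iff]
    refine ⟨hs, singleton_nonempty s, ?_⟩
    simp
  obtain ⟨C, hCF, hmax⟩ := F.exists_max_image Finset.card hF
  simp only [F, mem_filter, mem_powerset] at hCF
  obtain ⟨hCS, hCne, hCP⟩ := hCF
  have hC1 := hZ C (hCS.trans hS) hCne
  have hC2 := finrank_le_inf_ker (C.sup A) h
  have hC3 : finrank K (C.sup A ⊓ LinearMap.ker h : Submodule K W) ≤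
      finrank K (C.sup (fun i => A i ⊓ LinearMap.ker h) : Submodule K W) :=
    Submodule.finrank_mono hCP
  by_cases hCeq : C = S
  · subst hCeq
    omega
  have hcross : ∀ i ∈ C, ∀ j ∈ S \ C, A i ⊓ A j ≤ LinearMap.ker h := by
    intro i hi j hj
    by_contra hcon
    obtain ⟨x, hx, hxh⟩ := Set.not_subset.mp hcon
    have hxi : x ∈ A i := hx.1
    have hxj : x ∈ A j := hx.2
    have hhx : h x ≠ 0 := fun h0 => hxh (LinearMap.mem_ker.mpr h0)
    have hjS : j ∈ S := (mem_sdiff.mp hj).1
    have hjC : j ∉ C := (mem_sdiff.mp hj).2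
    have hmem : insert j C ∈ F := by
      simp only [F, mem_filter, mem_powerset]
      refine ⟨insert_subset hjS hCS, insert_nonempty _ _, ?_⟩
      rw [sup_insert, sup_insert]
      rintro z ⟨hz, hzh⟩
      obtain ⟨b, hb, a, ha, rfl⟩ := Submodule.mem_sup.mp hz
      have hzh' : h b + h a = 0 := by
        have := LinearMap.mem_ker.mp hzh
        rwa [map_add] at this
      have hxC : x ∈ C.sup A := (Finset.le_sup (f := A) hi) hxi
      have e1 : b - (h b / h x) • x ∈ A j ⊓ LinearMap.ker h := by
        refine Submodule.mem_inf.mpr ⟨Submodule.sub_mem _ hb (Submodule.smul_mem _ _ hxj), ?_⟩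
        rw [LinearMap.mem_ker, map_sub, map_smul, smul_eq_mul, div_mul_cancel₀ _ hhx, sub_self]
      have e2 : a + (h b / h x) • x ∈ C.sup (fun i => A i ⊓ LinearMap.ker h) := by
        apply hCP
        refine Submodule.mem_inf.mpr ⟨Submodule.add_mem _ ha (Submodule.smul_mem _ _ hxC), ?_⟩
        rw [LinearMap.mem_ker, map_add, map_smul, smul_eq_mul, div_mul_cancel₀ _ hhx]
        rw [add_comm]; exact hzh'
      have e3 : b + a = (b - (h b / h x) • x) + (a + (h b / h x) • x) := by abel
      rw [e3]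
      exact Submodule.add_mem_sup e1 e2
    have := hmax _ hmem
    rw [card_insert_of_notMem hjC] at this
    omega
  have hunion : C ∪ (S \ C) = S := union_sdiff_of_subset hCS
  have hdisj := hdis C (S \ C) (by rw [hunion]; exact hS) disjoint_sdiff hcross
  have hcard : (S \ C).card + C.card = S.card := card_sdiff_add_card_eq_card hCS
  have hCpos : 0 < C.card := hCne.card_pos
  have hD := ih (S \ C).card (by omega) (S \ C) rfl (sdiff_subset.trans hS)
  have hsup : S.sup (fun i => A i ⊓ LinearMap.ker h) =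
      C.sup (fun i => A i ⊓ LinearMap.ker h) ⊔ (S \ C).sup (fun i => A i ⊓ LinearMap.ker h) := by
    rw [← sup_union, hunion]
  have hinf : C.sup (fun i => A i ⊓ LinearMap.ker h) ⊓
      (S \ C).sup (fun i => A i ⊓ LinearMap.ker h) = ⊥ :=
    (hdisj.mono (sup_inf_ker_le A h C) (sup_inf_ker_le A h (S \ C))).eq_bot
  have hfr := Submodule.finrank_sup_add_finrank_inf_eq
    (C.sup (fun i => A i ⊓ LinearMap.ker h)) ((S \ C).sup (fun i => A i ⊓ LinearMap.ker h))
  rw [hinf, finrank_bot] at hfr
  rw [hsup]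
  omega

end

end Pool.Agent.Helper36.Pin
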